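import Pool.Agent.Q147.TG.Main

/-!
# Parallelograms of exponents
-/

set_option autoImplicit false

namespace Pool.Agent.Q189.PF

open Module Pool.Agent.Q147.TG
open Pool.Agent.Y787 (QC mem_QC HypC hyperplane)

variable {Cc : Type} [Field Cc] [CharZero Cc]

/-- the numbers `z` with `z` and `t z` in `Lt` -/
def pl (Lt : Submodule (QC Cc) Cc) (t : Cc) : Submodule (QC Cc) Cc where
  carrier := {z | z ∈ Lt ∧ t * z ∈ Lt}
  zero_mem' := ⟨Lt.zero_mem, by simp⟩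
  add_mem' := fun {a b} ha hb => ⟨Lt.add_mem ha.1 hb.1, by rw [mul_add]; exact Lt.add_mem ha.2 hb.2⟩
  smul_mem' := fun c a ha => ⟨Lt.smul_mem c ha.1, by rw [mul_smul_comm]; exact Lt.smul_mem c ha.2⟩

variable {Lt : Submodule (QC Cc) Cc} [HypC Lt]

theorem li_pair {t : Cc} (ht : ¬ IsAlgebraic ℚ t) : LinearIndependent (QC Cc) ![t, -1] := by
  rw [LinearIndependent.pair_iff]
  intro a b h
  have h1 : (a : Cc) * t + (b : Cc) * (-1) = 0 := h
  have ha : a = 0 := by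
    by_contra hne
    apply ht
    have hne' : (a : Cc) ≠ 0 := by exact_mod_cast hne
    have : t = (b : Cc) / a := by
      rw [eq_div_iff hne']
      linear_combination h1
    rw [this, div_eq_mul_inv]
    exact (mem_QC.1 b.2).mul (mem_QC.1 a.2).inv
  refine ⟨ha, ?_⟩
  rw [ha] at h1
  have h2 : (b : Cc) = 0 := by
    have h3 : ((0 : QC Cc) : Cc) = 0 := rfl
    rw [h3] at h1
    linear_combination -h1
  exact_mod_cast h2

omit [HypC Lt] in
theorem pl_le {t : Cc} : pl Lt t ≤ (hypSub Lt ![t, -1]).map (LinearMap.proj 0) := by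
  intro z hz
  refine ⟨![z, t * z], ⟨fun i => ?_, ?_⟩, rfl⟩
  · fin_cases i
    · exact hz.1
    · exact hz.2
  · rw [Fin.sum_univ_two]
    simp

theorem finrank_pl {t : Cc} (ht : ¬ IsAlgebraic ℚ t) :
    FiniteDimensional (QC Cc) (pl Lt t) ∧ finrank (QC Cc) (pl Lt t) ≤ 2 := by
  have hr := rank_hypSub (Lt := Lt) _ (li_pair ht)
  have hfin : FiniteDimensional (QC Cc) (hypSub Lt ![t, -1]) :=
    Module.rank_lt_aleph0_iff.1 (lt_of_le_of_lt hr (Cardinal.natCast_lt_aleph0))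
  have hfr : finrank (QC Cc) (hypSub Lt ![t, -1]) ≤ 2 := finrank_le_of_rank_le hr
  have h1 : FiniteDimensional (QC Cc) ((hypSub Lt ![t, -1]).map (LinearMap.proj 0 : (Fin 2 → Cc) →ₗ[QC Cc] Cc)) :=
    Module.Finite.map _ _
  have h2 : FiniteDimensional (QC Cc) (pl Lt t) := Submodule.finiteDimensional_of_le pl_le
  exact ⟨h2, (Submodule.finrank_mono pl_le).trans ((Submodule.finrank_map_le _ _).trans hfr)⟩

/-- the elements `g` of a group of rank `r` with `a g`, `c g` in `Lt` lie in at most `r + 1` classes -/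
theorem card_two {r : ℕ} {Γ : Subgroup Ccˣ} (hΓ : RankLe (QC Cc) Γ r) {t : Cc} (ht : ¬ IsAlgebraic ℚ t) (s : Ccˣ)
    (B : Finset Ccˣ) (hB : ∀ x ∈ B, x ∈ Γ) (hBL : ∀ x ∈ B, (s : Cc) * x ∈ Lt ∧ t * (s * x) ∈ Lt)
    (hs : Pool.Agent.Q147.TG.Sep (QC Cc) B) : B.card ≤ r + 1 := by
  obtain ⟨h1, h2⟩ := finrank_pl (Lt := Lt) ht
  have h3 := card_classes ac_QC r 2 Γ hΓ (shift s (pl Lt t)) ((finrank_shift_le s _).trans h2) B hB
    (fun x hx => mem_shift.2 (hBL x hx)) hs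
  rwa [Nat.multichoose_two] at h3

/-- the exponents `m` with `s g ^ m` and `s g ^ (m + δ)` in `Lt` -/
theorem card_diff {r : ℕ} {g : Fin r → Ccˣ} (hg : Free (QC Cc) g) (s : Ccˣ) {δ : Fin r → ℤ} (hδ : δ ≠ 0)
    (S : Finset (Fin r → ℤ)) (hS : ∀ m ∈ S, (s : Cc) * (mon g m : Ccˣ) ∈ Lt ∧ (s : Cc) * (mon g (m + δ) : Ccˣ) ∈ Lt) :
    S.card ≤ r + 1 := by
  classical
  have ht : ¬ IsAlgebraic ℚ ((mon g δ : Ccˣ) : Cc) := fun h => hδ (hg δ (cst_iff.2 h))
  rw [← Finset.card_image_of_injective S hg.injective]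
  refine card_two (Lt := Lt) (rankLe_grp g) ht s _ ?_ ?_ (hg.sep S)
  · intro x hx
    obtain ⟨m, -, rfl⟩ := Finset.mem_image.1 hx
    exact ⟨m, rfl⟩
  · intro x hx
    obtain ⟨m, hm, rfl⟩ := Finset.mem_image.1 hx
    obtain ⟨h1, h2⟩ := hS m hm
    refine ⟨h1, ?_⟩
    rw [mon_add, Units.val_mul] at h2
    rw [show ((mon g δ : Ccˣ) : Cc) * (s * (mon g m : Ccˣ)) = s * ((mon g m : Ccˣ) * (mon g δ : Ccˣ)) by ring]
    exact h2

/-- the number of the exponents in a box -/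
theorem card_box_mem {r H : ℕ} {g : Fin r → Ccˣ} (hg : Free (QC Cc) g) (s : Ccˣ) (S : Finset (Fin r → ℤ))
    (hSb : ∀ m ∈ S, ∀ i, |m i| ≤ H) (hS : ∀ m ∈ S, (s : Cc) * (mon g m : Ccˣ) ∈ Lt) :
    S.card * (S.card - 1) ≤ (r + 1) * ((4 * H + 1) ^ r - 1) := by
  classical
  have h1 : S.offDiag.card = S.card * (S.card - 1) := by
    rw [Finset.offDiag_card, Nat.mul_sub_one]
  rw [← h1]
  have h2 : ∀ δ ∈ S.offDiag.image (fun q => q.2 - q.1), (S.offDiag.filter fun q => q.2 - q.1 = δ).card ≤ r + 1 := by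
    intro δ hδ
    obtain ⟨q₀, hq₀, hδ₀⟩ := Finset.mem_image.1 hδ
    have hδ0 : δ ≠ 0 := by
      rw [← hδ₀]
      intro h
      exact (Finset.mem_offDiag.1 hq₀).2.2 (sub_eq_zero.1 h).symm
    have hinj : Set.InjOn (fun q : (Fin r → ℤ) × (Fin r → ℤ) => q.1) (S.offDiag.filter fun q => q.2 - q.1 = δ) := by
      intro q hq q' hq' h
      rw [Finset.mem_coe, Finset.mem_filter] at hq hq'
      have h : q.1 = q'.1 := h
      refine Prod.ext h ?_
      rw [sub_eq_iff_eq_add.1 hq.2, sub_eq_iff_eq_add.1 hq'.2, h]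
    rw [← Finset.card_image_of_injOn hinj]
    refine card_diff (Lt := Lt) hg s hδ0 _ ?_
    intro m hm
    obtain ⟨q, hq, rfl⟩ := Finset.mem_image.1 hm
    obtain ⟨hq1, hq2⟩ := Finset.mem_filter.1 hq
    obtain ⟨a, b, -⟩ := Finset.mem_offDiag.1 hq1
    refine ⟨hS _ a, ?_⟩
    have : q.1 + δ = q.2 := by rw [← hq2]; abel
    rw [this]
    exact hS _ b
  refine (Finset.card_le_mul_card_image _ _ h2).trans (Nat.mul_le_mul_left _ ?_)
  have h3 : S.offDiag.image (fun q => q.2 - q.1) ⊆ (box r (2 * H)).erase 0 := by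
    intro δ hδ
    obtain ⟨q, hq, rfl⟩ := Finset.mem_image.1 hδ
    obtain ⟨a, b, c⟩ := Finset.mem_offDiag.1 hq
    refine Finset.mem_erase.2 ⟨fun h => c (sub_eq_zero.1 h).symm, mem_box.2 fun i => ?_⟩
    have h1 := hSb _ a i
    have h2 := hSb _ b i
    rw [Pi.sub_apply, abs_le]
    rw [abs_le] at h1 h2
    push_cast
    constructor <;> linarith [h1.1, h1.2, h2.1, h2.2]
  refine (Finset.card_le_card h3).trans (le_of_eq ?_)
  rw [Finset.card_erase_of_mem (mem_box.2 fun i => by simp), card_box]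
  congr 2
  omega

/-- the number of the parallelograms -/
theorem card_par {r : ℕ} {g : Fin r → Ccˣ} (hg : Free (QC Cc) g) (s : Ccˣ) (S : Finset (Fin r → ℤ))
    (hS : ∀ m ∈ S, (s : Cc) * (mon g m : Ccˣ) ∈ Lt) (Q : Finset (Fin 2 → Fin 2 → Fin r → ℤ))
    (hQS : ∀ q ∈ Q, ∀ i j, q i j ∈ S) (hQ : ∀ q ∈ Q, q 0 0 + q 1 1 = q 0 1 + q 1 0 ∧ q 0 0 ≠ q 0 1 ∧ q 0 0 ≠ q 1 0) :
    Q.card ≤ r * (S.card * (S.card - 1)) := by
  classical
  have h1 : S.offDiag.card = S.card * (S.card - 1) := by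
    rw [Finset.offDiag_card, Nat.mul_sub_one]
  rw [← h1]
  have h2 : ∀ e ∈ Q.image (fun q => (q 0 0, q 0 1)), (Q.filter fun q => (q 0 0, q 0 1) = e).card ≤ r := by
    intro e he
    obtain ⟨q₀, hq₀, rfl⟩ := Finset.mem_image.1 he
    obtain ⟨-, hne, -⟩ := hQ q₀ hq₀
    set F := Q.filter fun q => (q 0 0, q 0 1) = (q₀ 0 0, q₀ 0 1) with hF
    have hF' : ∀ q ∈ F, q ∈ Q ∧ q 0 0 = q₀ 0 0 ∧ q 0 1 = q₀ 0 1 := by
      intro q hq
      obtain ⟨a, b⟩ := Finset.mem_filter.1 hq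
      rw [Prod.mk.injEq] at b
      exact ⟨a, b.1, b.2⟩
    have hinj : Set.InjOn (fun q : Fin 2 → Fin 2 → Fin r → ℤ => q 1 0) F := by
      intro q hq q' hq' h
      obtain ⟨a1, a2, a3⟩ := hF' q hq
      obtain ⟨b1, b2, b3⟩ := hF' q' hq'
      have h : q 1 0 = q' 1 0 := h
      have e1 := (hQ q a1).1
      have e2 := (hQ q' b1).1
      rw [a2, a3, h] at e1
      rw [b2, b3, ← e1] at e2
      have e3 : q 1 1 = q' 1 1 := (add_left_cancel e2).symm
      funext i j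
      fin_cases i <;> fin_cases j
      · exact a2.trans b2.symm
      · exact a3.trans b3.symm
      · exact h
      · exact e3
    have hmem : q₀ 0 0 ∉ F.image fun q => q 1 0 := by
      intro h
      obtain ⟨q, hq, h⟩ := Finset.mem_image.1 h
      obtain ⟨a1, a2, a3⟩ := hF' q hq
      exact (hQ q a1).2.2 (a2.trans h.symm)
    have h3 : (insert (q₀ 0 0) (F.image fun q => q 1 0)).card ≤ r + 1 := by
      refine card_diff (Lt := Lt) hg s (δ := q₀ 0 1 - q₀ 0 0) (sub_ne_zero.2 hne.symm) _ ?_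
      intro m hm
      rcases Finset.mem_insert.1 hm with rfl | hm
      · refine ⟨hS _ (hQS q₀ hq₀ 0 0), ?_⟩
        rw [add_sub_cancel]
        exact hS _ (hQS q₀ hq₀ 0 1)
      · obtain ⟨q, hq, rfl⟩ := Finset.mem_image.1 hm
        obtain ⟨a1, a2, a3⟩ := hF' q hq
        refine ⟨hS _ (hQS q a1 1 0), ?_⟩
        have e1 := (hQ q a1).1
        have : q 1 0 + (q₀ 0 1 - q₀ 0 0) = q 1 1 := by
          rw [← a2, ← a3, add_sub, add_comm (q 1 0), ← e1, add_sub_cancel_left]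
        rw [this]
        exact hS _ (hQS q a1 1 1)
    rw [Finset.card_insert_of_notMem hmem, Finset.card_image_of_injOn hinj] at h3
    omega
  refine (Finset.card_le_mul_card_image _ _ h2).trans (Nat.mul_le_mul_left _ (Finset.card_le_card ?_))
  intro e he
  obtain ⟨q, hq, rfl⟩ := Finset.mem_image.1 he
  exact Finset.mem_offDiag.2 ⟨hQS q hq 0 0, hQS q hq 0 1, (hQ q hq).2.1⟩

end Pool.Agent.Q189.PF
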